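import Pool.Agent.Helper53.PT.GoalsB2

/-!
MP_705522_gt, project PT (helper53), packet NI: `f0 < 0` on `[64,∞)`.
-/

set_option autoImplicit false

open MeasureTheory Set Filter Topology

namespace Pool.Agent.Helper94.PT

open Pool.Agent.Helper53.PT
open Pool.Agent.Helper40.PT

theorem tk_mono {θ x y : ℝ} (h0 : 0 < θ) (h1 : θ < 1 / 2) (hxy : x ≤ y) : tk θ x ≤ tk θ y := by
  unfold tk
  have := Real.Gamma_pos_of_pos (show 0 < 1 - θ by linarith)
  have := Real.Gamma_pos_of_pos (show 0 < 1 + θ by linarith)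
  exact Real.sqrt_le_sqrt (by gcongr)

theorem cos_le (q : ℝ) : Real.cos (Real.pi * (q - 1) / 2) ≤ -(1 - 1.2338 * (q - 3) ^ 2) := by
  have e : Real.cos (Real.pi * (q - 1) / 2) = -Real.cos (Real.pi * (q - 3) / 2) := by
    rw [← Real.cos_add_pi]
    congr 1
    ring
  have h := Real.one_sub_sq_div_two_le_cos (x := Real.pi * (q - 3) / 2)
  have hpi : Real.pi ^ 2 ≤ 9.8704 := by
    have := Real.pi_lt_d4
    have := Real.pi_pos
    nlinarith
  have h2 : (Real.pi * (q - 3) / 2) ^ 2 / 2 ≤ 1.2338 * (q - 3) ^ 2 := by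
    have e2 : (Real.pi * (q - 3) / 2) ^ 2 / 2 = Real.pi ^ 2 / 8 * (q - 3) ^ 2 := by ring
    rw [e2]
    have := sq_nonneg (q - 3)
    nlinarith
  rw [e]
  linarith

theorem pow_ratio {t t0 a : ℝ} (ht0 : 0 < t0) (ht : t0 ≤ t) :
    t ^ (-a) = t0 ^ (-a) * (t / t0) ^ (-a) := by
  rw [← Real.mul_rpow ht0.le (by have : 0 < t := by linarith
                                 positivity)]
  congr 1
  field_simp

/-- PACKET NI. -/
theorem gNI : GNI := by
  intro θ h4 h1 hyp x hx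
  have h0 : 0 < θ := by linarith
  have hx0 : 0 < x := by linarith
  have hq : 2 < 1 / θ := by rw [lt_div_iff₀ h0]; linarith
  have hq4 : 1 / θ ≤ 4 := by rw [div_le_iff₀ h0]; linarith
  have hN := Nn_pos h0 h1
  have e0 := (main (fun θ h0 h1 => ⟨hasDerivAt_f0 h0 h1, hasDerivAt_f1 h0 h1,
      fun x hx => ((aLAW h0 h1).2.2.2.2.2.1 x hx).2.2.2.2⟩) h0 h1 hx0).1
  have ht0 := tk_pos h0 h1 (show (0 : ℝ) < 64 by norm_num)
  have ht := tk_pos h0 h1 hx0
  have htt := tk_mono h0 h1 hx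
  obtain ⟨t, htd⟩ : ∃ t, t = tk θ x := ⟨_, rfl⟩
  obtain ⟨s, hsd⟩ : ∃ s, s = tk θ 64 := ⟨_, rfl⟩
  rw [← htd] at ht htt e0
  rw [← hsd] at ht0 htt hyp
  have h2 := (Pool.Agent.Helper87.PT.gROT (1 / θ) hq hq4 0 t ht).2
  have h3 : Real.pi / (2 * (1 / θ)) = Real.pi * θ / 2 := by field_simp
  have h5 : 2 * (1 / θ) = 2 / θ := by ring
  rw [h3, h5] at h2
  simp only [Nat.cast_zero, add_zero] at h2
  obtain ⟨S, hS⟩ : ∃ S, S = Real.sin (Real.pi * θ / 2) := ⟨_, rfl⟩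
  have hS0 : 0 < S := by
    rw [hS]
    exact Real.sin_pos_of_pos_of_lt_pi (by positivity) (by nlinarith [Real.pi_pos])
  rw [← hS] at h2 hyp
  have hG0 := Real.Gamma_pos_of_pos (show 0 < 1 / θ - 1 by linarith)
  have hG1 := Real.Gamma_pos_of_pos (show 0 < 2 / θ - 1 by rw [← h5]; linarith)
  obtain ⟨M, hM⟩ : ∃ M : ℝ, M = Real.Gamma (1 / θ - 1) * t ^ (-(1 / θ - 1)) := ⟨_, rfl⟩
  rw [← hM] at h2
  have hM0 : 0 < M := by
    rw [hM]
    exact mul_pos hG0 (Real.rpow_pos_of_pos ht _)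
  -- real part of the main term
  have hre : (((M : ℝ) : ℂ) * Complex.exp (Complex.I * (Real.pi * ((1 / θ : ℝ) - 1) / 2))).re =
      M * Real.cos (Real.pi * (1 / θ - 1) / 2) := by
    have e1 : Complex.I * ((Real.pi : ℂ) * (((1 / θ : ℝ) : ℂ) - 1) / 2) =
        ((Real.pi * (1 / θ - 1) / 2 : ℝ) : ℂ) * Complex.I := by push_cast; ring
    rw [Complex.re_ofReal_mul, e1, Complex.exp_ofReal_mul_I_re]
  have h6 : (Ik (1 / θ) 0 t).re ≤ M * Real.cos (Real.pi * (1 / θ - 1) / 2) +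
      Real.Gamma (2 / θ - 1) * (t * S) ^ (-(2 / θ - 1)) := by
    have h7 := (Complex.re_le_norm _).trans h2
    rw [Complex.sub_re, hre] at h7
    linarith
  -- comparison of the two terms at `t` and at `s`
  have hr1 : 1 ≤ t / s := by rw [le_div_iff₀ ht0]; linarith
  have hr0 : 0 < t / s := by linarith
  have hE : Real.Gamma (2 / θ - 1) * (t * S) ^ (-(2 / θ - 1)) ≤
      Real.Gamma (2 / θ - 1) * (s * S) ^ (-(2 / θ - 1)) * (t / s) ^ (-(1 / θ - 1)) := by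
    have e1 := pow_ratio (a := 2 / θ - 1) (t := t * S) (t0 := s * S) (by positivity) (by gcongr)
    have e2 : t * S / (s * S) = t / s := by field_simp
    rw [e1, e2, mul_assoc]
    have h8 : (t / s) ^ (-(2 / θ - 1)) ≤ (t / s) ^ (-(1 / θ - 1)) :=
      Real.rpow_le_rpow_of_exponent_le hr1 (by rw [← h5]; linarith)
    have h9 : 0 < (s * S) ^ (-(2 / θ - 1)) := Real.rpow_pos_of_pos (by positivity) _
    gcongr
  have hMs : M = Real.Gamma (1 / θ - 1) * s ^ (-(1 / θ - 1)) * (t / s) ^ (-(1 / θ - 1)) := by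
    rw [hM, pow_ratio (a := 1 / θ - 1) ht0 htt]
    ring
  have hrp : 0 < (t / s) ^ (-(1 / θ - 1)) := Real.rpow_pos_of_pos hr0 _
  have h10 : Real.Gamma (2 / θ - 1) * (t * S) ^ (-(2 / θ - 1)) <
      (1 - 1.2338 * (1 / θ - 3) ^ 2) * M := by
    refine hE.trans_lt ?_
    rw [hMs]
    have := mul_lt_mul_of_pos_right hyp hrp
    calc _ < _ := this
      _ = _ := by ring
  have h11 : M * Real.cos (Real.pi * (1 / θ - 1) / 2) ≤ M * (-(1 - 1.2338 * (1 / θ - 3) ^ 2)) :=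
    mul_le_mul_of_nonneg_left (cos_le _) hM0.le
  have h12 : (Ik (1 / θ) 0 t).re < 0 := by
    calc (Ik (1 / θ) 0 t).re ≤ _ := h6
      _ < 0 := by linarith
  rw [e0]
  unfold Ph
  rw [pow_zero, one_mul]
  exact div_neg_of_neg_of_pos h12 hN

end Pool.Agent.Helper94.PT
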