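import Pool.Agent.Helper53.PT.GoalsD
import Pool.Agent.Helper53.PT.B

/-!
# MP_705522_gt, `q ∈ (2,4)`: packet PT-AOK (coverage for one interval of the largest coordinate)
-/

set_option autoImplicit false

namespace Pool.Agent.Helper94.PT.AOK

open MeasureTheory Set Filter Topology
open Pool.Agent.Helper53.PT

theorem frc_eq {α : Type} (n : ℕ) (f : ℕ → α) : N.frc n f = f n := by
  cases n <;> rfl

theorem cond_true' {c : Bool} {b : Bool} (h : (cond c b false) = true) : c = true ∧ b = true := by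
  cases c <;> simp_all

theorem mn_eq (a b : ℕ) : N.mn a b = min a b := by
  unfold N.mn
  by_cases h : a ≤ b
  · rw [Nat.ble_eq_true_of_le h, min_eq_left h]; rfl
  · have : Nat.ble a b = false := by
      rw [← Bool.not_eq_true, Nat.ble_eq]; exact h
    rw [this, min_eq_right (not_le.mp h).le]; rfl

theorem aR_le {a b : ℕ} (h : a ≤ b) : aR a ≤ aR b := by
  unfold aR
  have : (a : ℝ) ≤ b := by exact_mod_cast h
  exact div_le_div_of_nonneg_right this (by positivity)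

theorem aR_nonneg (a : ℕ) : 0 ≤ aR a := by unfold aR; positivity

theorem aR_one : aR N.oneA = 1 := by
  unfold aR N.oneA; norm_num

theorem aR_sub {a : ℕ} (h : a ≤ 2 ^ 26) : aR (N.oneA - a) = 1 - aR a := by
  have h' : a ≤ N.oneA := by unfold N.oneA; exact h
  have : aR (N.oneA - a) = aR N.oneA - aR a := by
    unfold aR
    rw [Nat.cast_sub h']; ring
  rw [this, aR_one]

theorem aR_mul_nat (k a : ℕ) : aR (k * a) = k * aR a := by
  unfold aR; push_cast; ring

theorem aR_le_one {a : ℕ} (h : a ≤ 2 ^ 26) : aR a ≤ 1 := by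
  have := aR_le h
  have e : aR (2 ^ 26) = 1 := by unfold aR; norm_num
  rwa [e] at this

/-- The situation. -/
structure Sit (θ : ℝ) (n c : ℕ) (t : Fin n → ℝ) (i j : Fin n) (a1 a2 : ℕ) (S m : ℝ) : Prop where
  hc : c = n ∨ c = 0
  hn : 3 ≤ n
  h1 : 2 ^ 16 ≤ a1
  h12 : a1 ≤ a2
  h2 : a2 ≤ 2 ^ 26
  sx : Sx t
  mi : IsMinT θ t
  ij : i ≠ j
  lt : t j < t i
  ex : ∀ l, t l ≤ t i ∧ t j ≤ t l
  l1 : aR a1 ≤ t i
  l2 : t i ≤ aR a2
  mm : m = 1 - t i
  mp : 0 < m
  sS : S = ∑ l ∈ Finset.univ.erase i, t l ^ 2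
  K0 : K θ t i j ≤ 0
  A1 : m ^ 2 ≤ ((n : ℝ) - 1) * S
  A2 : (m - t j) ^ 2 ≤ ((n : ℝ) - 2) * (S - t j ^ 2)
  A3 : S ≤ t i * m
  A4 : S ≤ m ^ 2
  A5 : ((n : ℝ) - 1) * t j ≤ m
  A6 : 1 < n * t i
  j0 : 0 ≤ t j

variable {θ : ℝ} {n c : ℕ} {t : Fin n → ℝ} {i j : Fin n} {a1 a2 : ℕ} {S m : ℝ}

/-- one cell of type `0` -/
theorem type0 {N' m m0 b B V : ℝ} (hN : 1 ≤ N') (hm0 : 0 < m0) (hm : m0 ≤ m) (hb : 0 ≤ b) (hbB : b ≤ B)
    (hB : N' * B ≤ m0) (h : (N' - 1) * V * m0 < (m0 - B) ^ 2 + (N' - 1) * B ^ 2)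
    (h2 : (m - b) ^ 2 + (N' - 1) * b ^ 2 ≤ (N' - 1) * V * m) : False := by
  have hmp : 0 < m := lt_of_lt_of_le hm0 hm
  have hB0 : 0 ≤ B := hb.trans hbB
  have e1 : m * ((m0 - B) ^ 2 + (N' - 1) * B ^ 2) ≤ m0 * ((m - b) ^ 2 + (N' - 1) * b ^ 2) := by
    have k1 : 0 ≤ (m - m0) * (m0 * m - N' * B ^ 2) := by
      refine mul_nonneg (by linarith) ?_
      have k2 : (N' * B) * (N' * B) ≤ m0 * m :=
        mul_le_mul hB (hB.trans hm) (by positivity) hm0.le
      have k3 : N' * B ^ 2 ≤ (N' * B) * (N' * B) := by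
        have : (N' * B) * (N' * B) - N' * B ^ 2 = N' * (N' - 1) * B ^ 2 := by ring
        have k4 : 0 ≤ N' * (N' - 1) * B ^ 2 := by
          have : 0 ≤ N' - 1 := by linarith
          positivity
        linarith
      linarith
    have k5 : 0 ≤ m0 * ((B - b) * (2 * m - N' * (B + b))) := by
      refine mul_nonneg hm0.le (mul_nonneg (by linarith) ?_)
      have : N' * b ≤ N' * B := mul_le_mul_of_nonneg_left hbB (by linarith)
      nlinarith
    have k6 : m0 * ((m - b) ^ 2 + (N' - 1) * b ^ 2) - m * ((m0 - B) ^ 2 + (N' - 1) * B ^ 2) =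
        (m - m0) * (m0 * m - N' * B ^ 2) + m0 * ((B - b) * (2 * m - N' * (B + b))) := by ring
    linarith
  have e2 : m * ((N' - 1) * V * m0) < m * ((m0 - B) ^ 2 + (N' - 1) * B ^ 2) :=
    mul_lt_mul_of_pos_left h hmp
  have e3 : m0 * ((m - b) ^ 2 + (N' - 1) * b ^ 2) ≤ m0 * ((N' - 1) * V * m) :=
    mul_le_mul_of_nonneg_left h2 hm0.le
  have e4 : m * ((N' - 1) * V * m0) = m0 * ((N' - 1) * V * m) := by ring
  linarith

theorem a1_le_one (hs : Sit θ n c t i j a1 a2 S m) : a1 < N.oneA := by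
  by_contra h
  have h1 := aR_le (not_lt.mp h)
  rw [aR_one] at h1
  have := hs.l1
  have := hs.mm
  have := hs.mp
  linarith

/-- one cell of the smallest coordinate -/
theorem bOK_false (D : N.Tab) (z : ℝ) (hT : TF D θ z)
    (hK : ∀ (D : N.Tab) (θ z : ℝ), TF D θ z →
      ∀ (n c md Kn : ℕ) (t : Fin n → ℝ) (i j : Fin n) (a1 a2 b1 b2 t0 : ℕ), (c = 0 ∨ c = n) → 3 ≤ n → Sx t →
      t j < t i → (∀ l, t l ≤ t i ∧ t j ≤ t l) → 2 ^ 16 ≤ a1 → a1 ≤ a2 → a2 ≤ 2 ^ 26 → aR a1 ≤ t i → t i ≤ aR a2 →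
      aR b1 ≤ t j → t j ≤ aR b2 → ∑ l ∈ Finset.univ.erase i, t l ^ 2 ≤ aR t0 * (1 - t i) →
      N.kOK D c md a1 a2 b1 b2 t0 Kn = true → 0 < K θ t i j)
    (hE3 : ∀ (D : N.Tab) (θ z : ℝ), TF D θ z →
      ∀ (t : Fin 3 → ℝ) (i j : Fin 3) (a1 a2 b1 b2 : ℕ), i ≠ j → Sx t → (∀ l, t l ≤ t i ∧ t j ≤ t l) →
      aR a1 ≤ t i → t i ≤ aR a2 → aR b1 ≤ t j → t j ≤ aR b2 → a2 ≤ 2 ^ 26 → b2 ≤ 2 ^ 26 →
      N.e3OK D a1 a2 b1 b2 (N.eTail D a2) = true → ¬ IsMinT θ t)
    (hs : Sit θ n c t i j a1 a2 S m) (t0 b1 b2 ty : ℕ) (hS : S ≤ aR t0 * m) (hb1 : aR b1 ≤ t j)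
    (hb2 : t j ≤ aR b2) (hb2i : b2 ≤ N.invU c)
    (h : N.bOK D c a1 a2 t0 (N.eTail D a2) b1 b2 ty = true) : False := by
  have hmm := hs.mm
  have hn := hs.hn
  unfold N.bOK at h
  by_cases e0 : ty = 0
  · subst e0
    have hq : Nat.beq 0 0 = true := rfl
    rw [hq, cond_true] at h
    obtain ⟨q1, q2⟩ := cond_true' h
    obtain ⟨q3, q4⟩ := cond_true' q2
    rw [frc_eq] at q4
    rw [Nat.ble_eq] at q1 q3 q4
    have hcn : c = n := by
      rcases hs.hc with h | h
      · exact h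
      · rw [h] at q3; omega
    subst hcn
    have hc1 : 1 ≤ c := by omega
    have hm0e := aR_sub hs.h2
    set m0 : ℕ := N.oneA - a2 with hm0
    have q1' : ((c : ℝ) - 1) * b2 ≤ m0 := by
      have : (c - 1) * b2 ≤ m0 := q1
      have h3 : (((c - 1 : ℕ) : ℝ)) * b2 ≤ m0 := by exact_mod_cast this
      rwa [Nat.cast_sub hc1, Nat.cast_one] at h3
    have q4' : (((c : ℝ) - 2) * t0) * m0 + 1 ≤ ((m0 : ℝ) - b2) ^ 2 + ((c : ℝ) - 2) * (b2 : ℝ) ^ 2 := by
      have h3 : ((c - 2) * t0) * m0 + 1 ≤ (m0 - b2) * (m0 - b2) + (c - 2) * (b2 * b2) := q4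
      have hbm : b2 ≤ m0 := by
        have : 1 * b2 ≤ (c - 1) * b2 := Nat.mul_le_mul_right _ (by omega)
        have h4 : (c - 1) * b2 ≤ m0 := q1
        omega
      have h5 : ((((c - 2) * t0) * m0 + 1 : ℕ) : ℝ) ≤ (((m0 - b2) * (m0 - b2) + (c - 2) * (b2 * b2) : ℕ) : ℝ) := by
        exact_mod_cast h3
      push_cast [Nat.cast_sub hbm, Nat.cast_sub (show 2 ≤ c by omega)] at h5
      nlinarith
    have hm0pos : (0 : ℝ) < m0 := by
      rcases Nat.eq_zero_or_pos m0 with h3 | h3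
      · exfalso
        rw [h3] at q1' q4'
        have hc2 : (3 : ℝ) ≤ c := by exact_mod_cast hn
        have hb0 : (0 : ℝ) ≤ b2 := Nat.cast_nonneg _
        have hb00 : (b2 : ℝ) = 0 := by
          have : (1 : ℝ) * b2 ≤ ((c : ℝ) - 1) * b2 := mul_le_mul_of_nonneg_right (by linarith) hb0
          rw [Nat.cast_zero] at q1'
          linarith
        rw [hb00] at q4'
        simp at q4'
        linarith
      · exact_mod_cast h3
    have hc2 : (3 : ℝ) ≤ c := by exact_mod_cast hn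
    have hd : (0 : ℝ) < 2 ^ 26 := by positivity
    refine type0 (N' := (c : ℝ) - 1) (m := m) (m0 := aR m0) (b := t j) (B := aR b2) (V := aR t0)
      (by linarith) (by unfold aR; positivity) ?_ hs.j0 hb2 ?_ ?_ ?_
    · rw [hm0e, hmm]; linarith [hs.l2]
    · unfold aR
      rw [← mul_div_assoc]
      exact div_le_div_of_nonneg_right q1' hd.le
    · unfold aR
      have e1 : ((c : ℝ) - 1 - 1) * (t0 / 2 ^ 26) * (m0 / 2 ^ 26) = ((((c : ℝ) - 2) * t0) * m0) / (2 ^ 26) ^ 2 := by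
        field_simp; ring
      have e2 : ((m0 : ℝ) / 2 ^ 26 - b2 / 2 ^ 26) ^ 2 + ((c : ℝ) - 1 - 1) * (b2 / 2 ^ 26) ^ 2 =
          (((m0 : ℝ) - b2) ^ 2 + ((c : ℝ) - 2) * (b2 : ℝ) ^ 2) / (2 ^ 26) ^ 2 := by
        field_simp; ring
      rw [e1, e2]
      exact div_lt_div_of_pos_right (by linarith) (by positivity)
    · have e1 := hs.A2
      have e2 : ((c : ℝ) - 2) * S ≤ ((c : ℝ) - 2) * (aR t0 * m) :=
        mul_le_mul_of_nonneg_left hS (by linarith)
      nlinarith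
  · have hq : Nat.beq ty 0 = false := by
      rw [← Bool.not_eq_true, Nat.beq_eq]; exact e0
    rw [hq, cond_false] at h
    by_cases e1 : ty = 1
    · subst e1
      have hq1 : Nat.beq 1 1 = true := rfl
      rw [hq1, cond_true] at h
      obtain ⟨q1, q2⟩ := cond_true' h
      have hc3 : c = 3 := by rwa [Nat.beq_eq] at q1
      have hn3 : n = 3 := by
        rcases hs.hc with h | h <;> omega
      subst hn3
      have hb3 : b2 ≤ 2 ^ 26 := by
        refine hb2i.trans ?_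
        rw [hc3]; decide
      exact hE3 D θ z hT t i j a1 a2 b1 b2 hs.ij hs.sx hs.ex hs.l1 hs.l2 hb1 hb2 hs.h2 hb3 q2 hs.mi
    · have hq1 : Nat.beq ty 1 = false := by
        rw [← Bool.not_eq_true, Nat.beq_eq]; exact e1
      rw [hq1, cond_false] at h
      have key : ∀ md Kn, N.kOK D c md a1 a2 b1 b2 t0 Kn = true → False := by
        intro md Kn hk
        have := hK D θ z hT n c md Kn t i j a1 a2 b1 b2 t0 hs.hc.symm hs.hn hs.sx hs.lt hs.ex hs.h1 hs.h12
          hs.h2 hs.l1 hs.l2 hb1 hb2 (by rw [← hs.sS, ← hs.mm]; exact hS) hk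
        exact absurd hs.K0 (not_le.mpr this)
      cases hb : Nat.ble ty 255
      · rw [hb, cond_false] at h; exact key _ _ h
      · rw [hb, cond_true] at h; exact key _ _ h

/-- the conclusion of `GKOK` -/
def KConc : Prop := ∀ (D : N.Tab) (θ z : ℝ), TF D θ z →
      ∀ (n c md Kn : ℕ) (t : Fin n → ℝ) (i j : Fin n) (a1 a2 b1 b2 t0 : ℕ), (c = 0 ∨ c = n) → 3 ≤ n → Sx t →
      t j < t i → (∀ l, t l ≤ t i ∧ t j ≤ t l) → 2 ^ 16 ≤ a1 → a1 ≤ a2 → a2 ≤ 2 ^ 26 → aR a1 ≤ t i → t i ≤ aR a2 →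
      aR b1 ≤ t j → t j ≤ aR b2 → ∑ l ∈ Finset.univ.erase i, t l ^ 2 ≤ aR t0 * (1 - t i) →
      N.kOK D c md a1 a2 b1 b2 t0 Kn = true → 0 < K θ t i j

/-- the conclusion of `GE3` -/
def E3Conc : Prop := ∀ (D : N.Tab) (θ z : ℝ), TF D θ z →
      ∀ (t : Fin 3 → ℝ) (i j : Fin 3) (a1 a2 b1 b2 : ℕ), i ≠ j → Sx t → (∀ l, t l ≤ t i ∧ t j ≤ t l) →
      aR a1 ≤ t i → t i ≤ aR a2 → aR b1 ≤ t j → t j ≤ aR b2 → a2 ≤ 2 ^ 26 → b2 ≤ 2 ^ 26 →
      N.e3OK D a1 a2 b1 b2 (N.eTail D a2) = true → ¬ IsMinT θ t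

/-- the conclusion of `GEOK` -/
def EConc : Prop := ∀ (D : N.Tab) (θ z : ℝ), TF D θ z →
  ∀ (n c NM : ℕ) (t : Fin n → ℝ) (i : Fin n) (a1 a2 u v : ℕ), (c = n ∨ (c = 0 ∧ 2 ≤ NM ∧ NM ≤ n)) → 2 ≤ n → Sx t →
  (∀ l, t l ≤ t i) → aR a1 ≤ t i → t i ≤ aR a2 → a1 ≤ a2 → a2 ≤ 2 ^ 26 → u ≤ 2 ^ 26 →
  aR u * (1 - t i) ≤ ∑ l ∈ Finset.univ.erase i, t l ^ 2 →
  ∑ l ∈ Finset.univ.erase i, t l ^ 2 ≤ aR v * (1 - t i) →
  N.eOK D c NM a1 a2 u v (N.eTail D a2) = true → ¬ IsMinT θ t

/-- the conclusion of `GPOKS` -/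
def PConc : Prop := ∀ (D : N.Tab) (θ z : ℝ), TF D θ z →
  ∀ (n : ℕ) (t : Fin n → ℝ) (i k : Fin n) (a1 a2 e0 : ℕ), Sx t → i ≠ k → (∀ l, t l ≤ t i) → a2 ≤ 2 ^ 26 →
  0 < e0 → aR a1 ≤ t i → t i ≤ aR a2 → 0 < 1 - t i - t k → 1 - t i - t k ≤ aR e0 →
  N.pOK D a1 a2 e0 = true → ¬ IsMinT θ t

theorem bAll_false (D : N.Tab) (z : ℝ) (hT : TF D θ z) (hK : KConc) (hE3 : E3Conc)
    (hs : Sit θ n c t i j a1 a2 S m) (v : ℕ) (hS : S ≤ aR v * m) :
    ∀ (bs : List ℕ) (b' : ℕ), N.bAll D c a1 a2 v (N.eTail D a2) bs b' = true →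
      (aR b' < t j ∨ (aR b' ≤ t j ∧ bs ≠ [])) → False := by
  intro bs
  induction bs with
  | nil =>
    intro b' h hb
    have hlt : aR b' < t j := by
      rcases hb with h | ⟨_, h⟩
      · exact h
      · exact absurd rfl h
    have hn3 : (3 : ℝ) ≤ n := by exact_mod_cast hs.hn
    have hmm := hs.mm
    have hl1 := hs.l1
    have hl2 := hs.l2
    have hA5 := hs.A5
    have hji := hs.lt
    rw [N.bAll] at h
    by_cases e0 : c = 0
    · have hq : Nat.beq c 0 = true := by rw [e0]; rfl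
      rw [hq, cond_true, Nat.ble_eq] at h
      have := aR_le h
      linarith
    · have hq : Nat.beq c 0 = false := by
        rw [← Bool.not_eq_true, Nat.beq_eq]; exact e0
      have hcn : c = n := by
        rcases hs.hc with h | h
        · exact h
        · exact absurd h e0
      rw [hq, cond_false] at h
      by_cases e1 : N.oneA ≤ c * b'
      · have h2 := aR_le e1
        rw [aR_one, aR_mul_nat, hcn] at h2
        have h3 : (n : ℝ) * aR b' < n * t j := mul_lt_mul_of_pos_left hlt (by linarith)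
        nlinarith
      · have hq1 : Nat.ble N.oneA (Nat.mul c b') = false := by
          rw [← Bool.not_eq_true, Nat.ble_eq]; exact e1
        rw [hq1, cond_false, Nat.ble_eq] at h
        have h' : N.oneA - a1 ≤ (c - 1) * b' := h
        have h2 := aR_le h'
        rw [aR_sub (hs.h12.trans hs.h2), aR_mul_nat, hcn, Nat.cast_sub (by have := hs.hn; omega), Nat.cast_one] at h2
        have h3 : ((n : ℝ) - 1) * aR b' < ((n : ℝ) - 1) * t j := mul_lt_mul_of_pos_left hlt (by linarith)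
        linarith
  | cons c1 cs ih =>
    intro b' h hb
    have hle : aR b' ≤ t j := by
      rcases hb with h | ⟨h, _⟩
      · exact h.le
      · exact h
    rw [N.bAll] at h
    obtain ⟨q1, q2⟩ := cond_true' h
    by_cases e : t j ≤ aR (N.mn (Nat.shiftLeft (Nat.shiftRight c1 9) 16) (N.invU c))
    · exact bOK_false D z hT hK hE3 hs v b' _ _ hS hle e (by rw [mn_eq]; exact min_le_right _ _) q1
    · exact ih _ q2 (Or.inl (not_le.mp e))

theorem vAll_false (D : N.Tab) (z : ℝ) (hT : TF D θ z) (hE : EConc) (hK : KConc) (hE3 : E3Conc) (NM ep : ℕ)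
    (hc' : c = n ∨ (c = 0 ∧ 2 ≤ NM ∧ NM ≤ n))
    (hs : Sit θ n c t i j a1 a2 S m) (hep : c = 3 → 0 < ep → aR ep < t j) (bs : List ℕ) :
    ∀ (vs : List ℕ) (v : ℕ), N.vAll D c NM a1 a2 ep (N.eTail D a2) bs vs v = true →
      (S < aR v * m ∨ (S ≤ aR v * m ∧ (a2 ≤ v ∨ N.oneA - a1 ≤ v))) → False := by
  intro vs
  have hn3 : (3 : ℝ) ≤ n := by exact_mod_cast hs.hn
  have hmm := hs.mm
  have hl1 := hs.l1
  have hl2 := hs.l2
  have hmp := hs.mp
  have hA1 := hs.A1
  have hA3 := hs.A3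
  have hA6 := hs.A6
  have ha1 : a1 < N.oneA := a1_le_one hs
  induction vs with
  | nil =>
    intro v h hv
    have hSv : S ≤ aR v * m := by
      rcases hv with h | ⟨h, _⟩
      · exact h.le
      · exact h
    rw [N.vAll] at h
    by_cases e : (cond (Nat.beq c 0) (Nat.beq v 0) (Nat.ble (Nat.mul (Nat.sub c 1) v) (Nat.sub N.oneA a2))) = true
    · by_cases e0 : c = 0
      · have hq : Nat.beq c 0 = true := by rw [e0]; rfl
        rw [hq, cond_true, Nat.beq_eq] at e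
        rw [e] at hSv
        have h0 : aR 0 = 0 := by unfold aR; norm_num
        rw [h0, zero_mul] at hSv
        have : ((n : ℝ) - 1) * S ≤ 0 := mul_nonpos_of_nonneg_of_nonpos (by linarith) hSv
        have : 0 < m ^ 2 := by positivity
        linarith
      · have hq : Nat.beq c 0 = false := by
          rw [← Bool.not_eq_true, Nat.beq_eq]; exact e0
        have hcn : c = n := by
          rcases hs.hc with h | h
          · exact h
          · exact absurd h e0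
        rw [hq, cond_false, Nat.ble_eq] at e
        have e' : (c - 1) * v ≤ N.oneA - a2 := e
        have h2 := aR_le e'
        rw [aR_sub hs.h2, aR_mul_nat, hcn, Nat.cast_sub (by have := hs.hn; omega), Nat.cast_one] at h2
        have hn1 : 0 < (n : ℝ) - 1 := by linarith
        rcases hv with h3 | ⟨_, h3 | h3⟩
        · have h4 : ((n : ℝ) - 1) * S < ((n : ℝ) - 1) * (aR v * m) := mul_lt_mul_of_pos_left h3 hn1
          have h5 : ((n : ℝ) - 1) * aR v * m ≤ m * m := mul_le_mul_of_nonneg_right (by linarith) hmp.le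
          nlinarith
        · have h4 := aR_le h3
          have h5 : ((n : ℝ) - 1) * aR a2 ≤ ((n : ℝ) - 1) * aR v := mul_le_mul_of_nonneg_left h4 hn1.le
          have h6 : (n : ℝ) * t i ≤ n * aR a2 := mul_le_mul_of_nonneg_left hl2 (by linarith)
          linarith
        · have h4 := aR_le h3
          rw [aR_sub (hs.h12.trans hs.h2)] at h4
          have h5 : ((n : ℝ) - 1) * (1 - aR a1) ≤ ((n : ℝ) - 1) * aR v := mul_le_mul_of_nonneg_left h4 hn1.le
          have h6 : 2 * (1 - aR a1) ≤ ((n : ℝ) - 1) * (1 - aR a1) :=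
            mul_le_mul_of_nonneg_right (by linarith) (by linarith)
          have h7 := aR_le hs.h12
          linarith
    · have hq : (cond (Nat.beq c 0) (Nat.beq v 0) (Nat.ble (Nat.mul (Nat.sub c 1) v) (Nat.sub N.oneA a2))) = false := by
        rw [← Bool.not_eq_true]; exact e
      rw [hq, cond_false] at h
      have hb0 : Nat.beq c 3 = true ∧ 0 < ep ∨ (cond (Nat.beq c 3) ep 0) = 0 := by
        by_cases e3 : c = 3
        · have : Nat.beq c 3 = true := by rw [e3]; rfl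
          rw [this, cond_true]
          rcases Nat.eq_zero_or_pos ep with h | h
          · right; exact h
          · left; exact ⟨rfl, h⟩
        · right
          have : Nat.beq c 3 = false := by
            rw [← Bool.not_eq_true, Nat.beq_eq]; exact e3
          rw [this, cond_false]
      rcases hb0 with ⟨h3, h4⟩ | h3
      · have hc3 : c = 3 := by rwa [Nat.beq_eq] at h3
        rw [h3, cond_true] at h
        exact bAll_false D z hT hK hE3 hs v hSv bs ep h (Or.inl (hep hc3 h4))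
      · rw [h3] at h
        have h0 : aR 0 = 0 := by unfold aR; norm_num
        by_cases hbs : bs = []
        · subst hbs
          rw [N.bAll] at h
          by_cases e0 : c = 0
          · have hq : Nat.beq c 0 = true := by rw [e0]; rfl
            rw [hq, cond_true, Nat.ble_eq] at h
            have := hs.h1
            have := hs.h12
            omega
          · have hq : Nat.beq c 0 = false := by
              rw [← Bool.not_eq_true, Nat.beq_eq]; exact e0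
            rw [hq, cond_false] at h
            have hq1 : Nat.ble N.oneA (Nat.mul c 0) = false := by
              rw [← Bool.not_eq_true, Nat.ble_eq]
              show ¬ (N.oneA ≤ c * 0)
              have := hs.h1
              omega
            rw [hq1, cond_false, Nat.ble_eq] at h
            have h' : N.oneA - a1 ≤ (c - 1) * 0 := h
            omega
        · exact bAll_false D z hT hK hE3 hs v hSv bs 0 h (Or.inr ⟨by rw [h0]; exact hs.j0, hbs⟩)
  | cons u us ih =>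
    intro v h hv
    have hSv : S ≤ aR v * m := by
      rcases hv with h | ⟨h, _⟩
      · exact h.le
      · exact h
    rw [N.vAll] at h
    obtain ⟨q1, q2⟩ := cond_true' h
    by_cases e : aR (Nat.shiftLeft u 12) * m ≤ S
    · have hu : Nat.shiftLeft u 12 ≤ 2 ^ 26 := by
        have h1 : aR (Nat.shiftLeft u 12) ≤ 1 := by
          have h2 : aR (Nat.shiftLeft u 12) * m ≤ t i * m := e.trans hA3
          have h3 : aR (Nat.shiftLeft u 12) ≤ t i := le_of_mul_le_mul_right h2 hmp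
          linarith
        have h4 : ((Nat.shiftLeft u 12 : ℕ) : ℝ) ≤ 2 ^ 26 := by
          unfold aR at h1
          rwa [div_le_one (by positivity)] at h1
        exact_mod_cast h4
      refine hE D θ z hT n c NM t i a1 a2 (Nat.shiftLeft u 12) v hc' (by have := hs.hn; omega) hs.sx
        (fun l => (hs.ex l).1) hl1 hl2 hs.h12 hs.h2 hu ?_ ?_ q1 hs.mi
      · rw [← hs.sS, ← hmm]; exact e
      · rw [← hs.sS, ← hmm]; exact hSv
    · exact ih _ q2 (Or.inl (not_le.mp e))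

/-- the start with `ep > 0` -/
theorem start_pos {e M m' : ℝ} {ep m1 v0 : ℕ} (he : e = aR ep) (hM : M = aR m1) (hmM : m' ≤ M) (he0 : 0 ≤ e)
    (hem : 2 * e ≤ m') (hm' : 0 < m') (hS : S ≤ (m' - e) ^ 2 + e ^ 2) (hle : ep ≤ m1)
    (h : ((m1 - ep) * (m1 - ep) + ep * ep) / m1 + 1 ≤ v0) : S < aR v0 * m' := by
  have hMp : 0 < M := lt_of_lt_of_le hm' hmM
  have hm1 : 0 < m1 := by
    rcases Nat.eq_zero_or_pos m1 with h1 | h1
    · rw [h1] at hM
      have : aR 0 = 0 := by unfold aR; norm_num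
      rw [this] at hM
      linarith
    · exact h1
  have h1 : (m1 - ep) * (m1 - ep) + ep * ep < m1 * v0 := by
    have h2 := Nat.lt_mul_div_succ ((m1 - ep) * (m1 - ep) + ep * ep) hm1
    exact lt_of_lt_of_le h2 (Nat.mul_le_mul_left _ h)
  have h2 : (((m1 : ℝ) - ep) * ((m1 : ℝ) - ep) + ep * ep) < m1 * v0 := by
    have : ((((m1 - ep) * (m1 - ep) + ep * ep : ℕ)) : ℝ) < ((m1 * v0 : ℕ) : ℝ) := by exact_mod_cast h1
    push_cast [Nat.cast_sub hle] at this
    exact this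
  have h3 : (M - e) ^ 2 + e ^ 2 < M * aR v0 := by
    rw [hM, he]
    unfold aR
    have e1 : ((m1 : ℝ) / 2 ^ 26 - ep / 2 ^ 26) ^ 2 + ((ep : ℝ) / 2 ^ 26) ^ 2 =
      (((m1 : ℝ) - ep) * ((m1 : ℝ) - ep) + ep * ep) / (2 ^ 26) ^ 2 := by field_simp
    have e2 : (m1 : ℝ) / 2 ^ 26 * (v0 / 2 ^ 26) = (m1 * v0) / (2 ^ 26) ^ 2 := by field_simp
    rw [e1, e2]
    exact div_lt_div_of_pos_right h2 (by positivity)
  have h4 : M * ((m' - e) ^ 2 + e ^ 2) ≤ m' * ((M - e) ^ 2 + e ^ 2) := by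
    have h5 : m' * ((M - e) ^ 2 + e ^ 2) - M * ((m' - e) ^ 2 + e ^ 2) = (M - m') * (m' * M - 2 * e ^ 2) := by ring
    have h6 : 0 ≤ (M - m') * (m' * M - 2 * e ^ 2) := by
      refine mul_nonneg (by linarith) ?_
      have : (2 * e) * (2 * e) ≤ m' * M := mul_le_mul hem (hem.trans hmM) (by positivity) hm'.le
      nlinarith [sq_nonneg e]
    linarith
  have h7 : m' * ((M - e) ^ 2 + e ^ 2) < m' * (M * aR v0) := mul_lt_mul_of_pos_left h3 hm'
  have h8 : M * S ≤ M * ((m' - e) ^ 2 + e ^ 2) := mul_le_mul_of_nonneg_left hS hMp.le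
  have h9 : M * S < M * (aR v0 * m') := by
    have : m' * (M * aR v0) = M * (aR v0 * m') := by ring
    linarith
  exact lt_of_mul_lt_mul_left h9 hMp.le

theorem third (t : Fin 3 → ℝ) (ht : ∑ l, t l = 1) (i j : Fin 3) (hij : i ≠ j) :
    ∃ k, k ≠ i ∧ t j = 1 - t i - t k := by
  rw [Fin.sum_univ_three] at ht
  fin_cases i <;> fin_cases j
  · exact absurd rfl hij
  · exact ⟨2, by decide, by simp only [Fin.mk_zero, Fin.mk_one]; linarith⟩
  · refine ⟨1, by decide, ?_⟩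
    show t 2 = 1 - t 0 - t 1
    linarith
  · refine ⟨2, by decide, ?_⟩
    show t 0 = 1 - t 1 - t 2
    linarith
  · exact absurd rfl hij
  · refine ⟨0, by decide, ?_⟩
    show t 2 = 1 - t 1 - t 0
    linarith
  · refine ⟨1, by decide, ?_⟩
    show t 0 = 1 - t 2 - t 1
    linarith
  · refine ⟨0, by decide, ?_⟩
    show t 1 = 1 - t 2 - t 0
    linarith
  · exact absurd rfl hij

theorem final (hE : EConc) (hE3 : E3Conc) (hK : KConc) (hP : PConc) (D : N.Tab) (θ z : ℝ) (hT : TF D θ z)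
    (n c NM a1 a2 ep v0 : ℕ) (vs bs : List ℕ) (hc : c = n ∨ (c = 0 ∧ 2 ≤ NM ∧ NM ≤ n)) (hn : 3 ≤ n)
    (h1 : 2 ^ 16 ≤ a1) (h12 : a1 ≤ a2) (h2 : a2 ≤ 2 ^ 26) (h : N.aOK D c NM a1 a2 ep v0 vs bs = true) :
    AGood θ n (aR a1) (aR a2) := by
  intro t i hmin hmax l1 l2
  by_contra hG
  have sx := hmin.1
  obtain ⟨B1, B2, B3⟩ := bACOV θ hT.th0 hT.th1 n t sx
  obtain ⟨j, _, hj⟩ := Finset.exists_min_image Finset.univ t ⟨i, Finset.mem_univ i⟩
  have ex : ∀ l, t l ≤ t i ∧ t j ≤ t l := fun l => ⟨hmax l, hj l (Finset.mem_univ l)⟩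
  have lt : t j < t i := by
    by_contra hle
    apply hG
    apply B1
    intro l l'
    have a := ex l
    have b := ex l'
    linarith
  have ij : i ≠ j := by
    rintro rfl
    exact lt_irrefl _ lt
  have j0 : 0 ≤ t j := sx.1 j
  have hn3 : (3 : ℝ) ≤ n := by exact_mod_cast hn
  have hpair : ∀ k, k ≠ i → t i + t k ≤ 1 := by
    intro k hk
    have h1 : ∑ l ∈ {i, k}, t l ≤ ∑ l, t l :=
      Finset.sum_le_sum_of_subset_of_nonneg (Finset.subset_univ _) (fun l _ _ => sx.1 l)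
    rw [sx.2, Finset.sum_pair (Ne.symm hk)] at h1
    exact h1
  have mp : 0 < 1 - t i := by
    by_contra hle
    apply hG
    have := hpair j (Ne.symm ij)
    exact B2 hmin i j ij (by linarith)
  obtain ⟨A1, A2, A3, A4, A5, _, A7, _⟩ := B3 i j ij ex
  have A6 : 1 < n * t i := by
    have h1 : ∑ l, t l < ∑ _l : Fin n, t i :=
      Finset.sum_lt_sum (fun l _ => hmax l) ⟨j, Finset.mem_univ j, lt⟩
    rw [sx.2, Finset.sum_const, Finset.card_univ, Fintype.card_fin, nsmul_eq_mul] at h1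
    exact h1
  have K0 : K θ t i j ≤ 0 := ((aDER hT.th0 hT.th1 n).2 t sx hmin.2 i j lt).2
  have hs : Sit θ n c t i j a1 a2 (∑ l ∈ Finset.univ.erase i, t l ^ 2) (1 - t i) :=
    { hc := by rcases hc with h | h
               · exact Or.inl h
               · exact Or.inr h.1
      hn := hn, h1 := h1, h12 := h12, h2 := h2, sx := sx, mi := hmin, ij := ij, lt := lt, ex := ex
      l1 := l1, l2 := l2, mm := rfl, mp := mp, sS := rfl, K0 := K0, A1 := A1
      A2 := A2, A3 := A3, A4 := by rw [sq] at A4 ⊢; exact A4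
      A5 := A5, A6 := A6, j0 := j0 }
  unfold N.aOK at h
  obtain ⟨q1, q2⟩ := cond_true' h
  have hstart : ∀ v, (a2 ≤ v ∨ N.oneA - a1 ≤ v) → ∑ l ∈ Finset.univ.erase i, t l ^ 2 ≤ aR v * (1 - t i) := by
    intro v hv
    rcases hv with hv | hv
    · have e1 := aR_le hv
      exact A3.trans (mul_le_mul_of_nonneg_right (by linarith) mp.le)
    · have e1 := aR_le hv
      rw [aR_sub (h12.trans h2)] at e1
      refine A4.trans ?_
      rw [sq]
      exact mul_le_mul_of_nonneg_right (by linarith) mp.le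
  by_cases e0 : ep = 0
  · have hq : Nat.beq ep 0 = true := by rw [e0]; rfl
    rw [hq, cond_true, Nat.ble_eq, mn_eq] at q1
    have hv : a2 ≤ v0 ∨ N.oneA - a1 ≤ v0 := min_le_iff.mp q1
    exact vAll_false D z hT hE hK hE3 NM ep hc hs (fun _ h => by omega) bs vs v0 q2 (Or.inr ⟨hstart v0 hv, hv⟩)
  · have hq : Nat.beq ep 0 = false := by
      rw [← Bool.not_eq_true, Nat.beq_eq]; exact e0
    rw [hq, cond_false] at q1
    obtain ⟨q3, q4⟩ := cond_true' q1
    obtain ⟨q5, q6⟩ := cond_true' q3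
    rw [frc_eq, Nat.ble_eq, mn_eq, mn_eq] at q6
    rw [Nat.ble_eq] at q5
    have q5' : 2 * ep ≤ N.oneA - a2 := q5
    have hep0 : 0 < ep := Nat.pos_of_ne_zero e0
    have hgt : ∀ k, k ≠ i → aR ep < 1 - t i - t k := by
      intro k hk
      by_contra hle
      rcases lt_or_ge 0 (1 - t i - t k) with h3 | h3
      · exact hP D θ z hT n t i k a1 a2 ep sx (Ne.symm hk) hmax h2 hep0 l1 l2 h3 (not_lt.mp hle) q4 hmin
      · apply hG
        have := hpair k hk
        exact B2 hmin i k (Ne.symm hk) (by linarith)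
    have hep2 : 2 * aR ep ≤ 1 - t i := by
      have e1 := aR_le q5'
      rw [aR_sub h2] at e1
      have e2 : aR (2 * ep) = 2 * aR ep := by
        have := aR_mul_nat 2 ep
        rw [this]; norm_num
      rw [e2] at e1
      linarith
    have hA7 := A7 (aR ep) (aR_nonneg ep) hep2 (fun k hk => by have := hgt k hk; linarith)
    have hepj : c = 3 → 0 < ep → aR ep < t j := by
      intro hc3 _
      have hn3' : n = 3 := by
        rcases hc with h | h <;> omega
      subst hn3'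
      obtain ⟨k, hk, hk2⟩ := third t sx.2 i j ij
      rw [hk2]
      exact hgt k hk
    refine vAll_false D z hT hE hK hE3 NM ep hc hs hepj bs vs v0 q2 ?_
    rcases min_le_iff.mp q6 with h3 | h3
    · have hv : a2 ≤ v0 ∨ N.oneA - a1 ≤ v0 := min_le_iff.mp h3
      exact Or.inr ⟨hstart v0 hv, hv⟩
    · left
      have e1 : aR (N.oneA - a1) = 1 - aR a1 := aR_sub (h12.trans h2)
      have h12' : N.oneA - a2 ≤ N.oneA - a1 := Nat.sub_le_sub_left h12 _
      exact start_pos (m1 := N.oneA - a1) (ep := ep) rfl e1.symm (by linarith) (aR_nonneg ep) hep2 mp hA7 (by omega) h3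

end Pool.Agent.Helper94.PT.AOK

namespace Pool.Agent.Helper94.PT

open Pool.Agent.Helper53.PT

/-- (AOK), with the premises of `GEOK`, `GE3`, `GKOK`, `GPOKS`. -/
theorem gAOK (h1 : GENN) (h2 : GETL) (h3 : GE3N) (h4 : GXI) (h5 : GKP) (h6 : GKN) (h7 : GKT) (h8 : GPSM) (h9 : GEXP)
    (h10 : GSQ) : GAOK := by
  intro k1 k2 k3 k4 D θ z hT n c NM a1 a2 ep v0 vs bs hc hn e1 e12 e2 h
  exact AOK.final (k1 h1 h2) (k2 h3 h2) (k3 h4 h5 h6 h7) (k4 h8 h9 h10) D θ z hT n c NM a1 a2 ep v0 vs bs hc hn e1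
    e12 e2 h

end Pool.Agent.Helper94.PT
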